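import Pool.Agent.H89.FM.Targets2

/-!
# Row ROT: the Epstein zeta function does not depend on the rotation
-/

set_option autoImplicit false

open MeasureTheory Set Filter
open scoped Real Matrix MatrixGroups Topology

namespace Pool.Agent.H13.FM

open Pool.Agent.H31.CN Pool.Agent.H89.FM

/-! ### Rotation of the contour -/

/-- `exp (x + θ i)` lies in the sector -/
theorem exp_re (x y : ℝ) : (Complex.exp (x + y * Complex.I)).re = Real.exp x * Real.cos y := by
  rw [Complex.exp_re]; simp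

theorem exp_norm (x y : ℝ) : ‖Complex.exp (x + y * Complex.I)‖ = Real.exp x := by
  rw [Complex.norm_exp]; simp

theorem cos_pos' {θ : ℝ} (hθ : |θ| < π / 2) : 0 < Real.cos θ := by
  rw [abs_lt] at hθ
  exact Real.cos_pos_of_mem_Ioo ⟨by linarith, hθ.2⟩

theorem cos_le' {θ y : ℝ} (hθ : |θ| < π / 2) (hy : |y| ≤ |θ|) : Real.cos θ ≤ Real.cos y := by
  rw [← Real.cos_abs θ, ← Real.cos_abs y]
  exact Real.cos_le_cos_of_nonneg_of_le_pi (abs_nonneg _) (by linarith [Real.pi_pos]) hy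

theorem mem_uIoc_abs {θ y : ℝ} (hy : y ∈ uIoc 0 θ) : |y| ≤ |θ| := by
  rcases le_total 0 θ with h | h
  · rw [uIoc_of_le h] at hy
    rw [abs_of_pos hy.1, abs_of_nonneg h]; exact hy.2
  · rw [uIoc_of_ge h] at hy
    rw [abs_of_nonpos hy.2, abs_of_nonpos h]; linarith [hy.1]

section rot

variable {G : ℂ → ℂ} {A c θ : ℝ}

theorem rot_cont (hG : DifferentiableOn ℂ G {w | 0 < w.re}) (hθ : |θ| < π / 2) :
    ContinuousOn (fun u : ℝ => G (Complex.exp (θ * Complex.I) * u) / u) (Ioi (0 : ℝ)) := by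
  refine ContinuousOn.div ?_ (Complex.continuous_ofReal.continuousOn) ?_
  · refine hG.continuousOn.comp (Continuous.continuousOn (by fun_prop)) ?_
    intro u hu
    have hu' : (0 : ℝ) < u := hu
    have h1 := exp_re 0 θ
    simp only [Complex.ofReal_zero, zero_add, Real.exp_zero, one_mul] at h1
    show 0 < (Complex.exp (θ * Complex.I) * u).re
    rw [Complex.re_mul_ofReal, h1]
    exact mul_pos (cos_pos' hθ) hu'
  · intro u hu
    have hu' : (0 : ℝ) < u := hu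
    exact Complex.ofReal_ne_zero.mpr hu'.ne'

theorem rot_int (hG : DifferentiableOn ℂ G {w | 0 < w.re}) (hc : 0 < c) (hθ : |θ| < π / 2)
    (hb : ∀ w : ℂ, 1 ≤ ‖w‖ → ‖w‖ * Real.cos θ ≤ w.re → ‖G w‖ ≤ A * Real.exp (-(c * ‖w‖))) :
    IntegrableOn (fun u : ℝ => G (Complex.exp (θ * Complex.I) * u) / u) (Ioi (1 : ℝ)) := by
  have h1 : IntegrableOn (fun u : ℝ => A * Real.exp (-c * u)) (Ioi (1 : ℝ)) :=
    (exp_neg_integrableOn_Ioi 1 hc).const_mul A
  refine Integrable.mono' h1 ?_ ?_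
  · exact ((rot_cont hG hθ).mono (Ioi_subset_Ioi zero_le_one)).aestronglyMeasurable
      measurableSet_Ioi
  · refine (ae_restrict_iff' measurableSet_Ioi).mpr (Eventually.of_forall fun u hu => ?_)
    have hu' : (1 : ℝ) < u := hu
    have h2 := exp_re 0 θ
    have h3 := exp_norm 0 θ
    simp only [Complex.ofReal_zero, zero_add, Real.exp_zero, one_mul] at h2 h3
    have h4 : ‖Complex.exp (θ * Complex.I) * u‖ = u := by
      rw [norm_mul, h3, one_mul, Complex.norm_real, Real.norm_eq_abs, abs_of_pos (by linarith)]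
    have h5 := hb (Complex.exp (θ * Complex.I) * u) (by rw [h4]; exact hu'.le)
      (by rw [h4, Complex.re_mul_ofReal, h2, mul_comm])
    rw [h4] at h5
    rw [norm_div, Complex.norm_real, Real.norm_eq_abs, abs_of_pos (by linarith)]
    calc ‖G (Complex.exp (θ * Complex.I) * u)‖ / u
        ≤ ‖G (Complex.exp (θ * Complex.I) * u)‖ := div_le_self (norm_nonneg _) hu'.le
      _ ≤ A * Real.exp (-c * u) := by rw [neg_mul]; exact h5

/-- substitution `u = exp x` -/
theorem subst_exp (F : ℝ → ℂ) :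
    (IntegrableOn (fun u : ℝ => F u / u) (Ioi (1 : ℝ)) ↔
      IntegrableOn (fun x : ℝ => F (Real.exp x)) (Ioi (0 : ℝ))) ∧
    ∫ u in Ioi (1 : ℝ), F u / u = ∫ x in Ioi (0 : ℝ), F (Real.exp x) := by
  have him : Real.exp '' Ioi (0 : ℝ) = Ioi (1 : ℝ) := by
    ext u
    constructor
    · rintro ⟨x, hx, rfl⟩
      exact Real.one_lt_exp_iff.mpr hx
    · intro hu
      exact ⟨Real.log u, Real.log_pos hu, Real.exp_log (lt_trans zero_lt_one hu)⟩
  have hd : ∀ x ∈ Ioi (0 : ℝ), HasDerivWithinAt Real.exp (Real.exp x) (Ioi 0) x :=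
    fun x _ => (Real.hasDerivAt_exp x).hasDerivWithinAt
  have hinj : InjOn Real.exp (Ioi (0 : ℝ)) := Real.exp_injective.injOn
  have e : ∀ x : ℝ, |Real.exp x| • (F (Real.exp x) / ((Real.exp x : ℝ) : ℂ)) =
      F (Real.exp x) := by
    intro x
    rw [abs_of_pos (Real.exp_pos x), Complex.real_smul]
    have : ((Real.exp x : ℝ) : ℂ) ≠ 0 := Complex.ofReal_ne_zero.mpr (Real.exp_pos x).ne'
    field_simp
  constructor
  · have := integrableOn_image_iff_integrableOn_abs_deriv_smul measurableSet_Ioi hd hinj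
      (fun u : ℝ => F u / (u : ℂ))
    rw [him] at this
    simp only [e] at this
    exact this
  · have := integral_image_eq_integral_abs_deriv_smul measurableSet_Ioi hd hinj
      (fun u : ℝ => F u / (u : ℂ))
    rw [him] at this
    simp only [e] at this
    exact this

/-- rotation of the contour -/
theorem rot (hG : DifferentiableOn ℂ G {w | 0 < w.re}) (hc : 0 < c) (hθ : |θ| < π / 2)
    (hb : ∀ w : ℂ, 1 ≤ ‖w‖ → ‖w‖ * Real.cos θ ≤ w.re → ‖G w‖ ≤ A * Real.exp (-(c * ‖w‖))) :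
    ∫ u in Ioi (1 : ℝ), G (Complex.exp (θ * Complex.I) * u) / u =
      (∫ u in Ioi (1 : ℝ), G u / u) -
        Complex.I * ∫ y in (0 : ℝ)..θ, G (Complex.exp (y * Complex.I)) := by
  have hA : 0 ≤ A := by
    have h1 := hb 1 (by simp) (by simp [Real.cos_le_one])
    have h2 := (norm_nonneg _).trans h1
    exact nonneg_of_mul_nonneg_left h2 (Real.exp_pos _)
  have h0 : |(0 : ℝ)| < π / 2 := by rw [abs_zero]; positivity
  have hb0 : ∀ w : ℂ, 1 ≤ ‖w‖ → ‖w‖ * Real.cos 0 ≤ w.re →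
      ‖G w‖ ≤ A * Real.exp (-(c * ‖w‖)) := by
    intro w h1 h2
    refine hb w h1 ?_
    rw [Real.cos_zero, mul_one] at h2
    calc ‖w‖ * Real.cos θ ≤ ‖w‖ * 1 :=
          mul_le_mul_of_nonneg_left (Real.cos_le_one θ) (norm_nonneg w)
      _ ≤ w.re := by rw [mul_one]; exact h2
  -- the functions in the logarithmic variable
  have i0 := rot_int hG hc h0 hb0
  have iθ := rot_int hG hc hθ hb
  have s0 := subst_exp (fun u : ℝ => G (Complex.exp ((0 : ℝ) * Complex.I) * u))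
  have sθ := subst_exp (fun u : ℝ => G (Complex.exp (θ * Complex.I) * u))
  have j0 := s0.1.1 i0
  have jθ := sθ.1.1 iθ
  have e : ∀ (t x : ℝ), Complex.exp (t * Complex.I) * ((Real.exp x : ℝ) : ℂ) =
      Complex.exp (x + t * Complex.I) := by
    intro t x
    rw [Complex.ofReal_exp, ← Complex.exp_add, add_comm]
  simp only [e] at s0 sθ j0 jθ
  have l0 := intervalIntegral_tendsto_integral_Ioi 0 j0 tendsto_id
  have lθ := intervalIntegral_tendsto_integral_Ioi 0 jθ tendsto_id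
  have lv : Tendsto (fun X : ℝ => ∫ y in (0 : ℝ)..θ, G (Complex.exp (X + y * Complex.I)))
      atTop (𝓝 0) := by
    rw [tendsto_zero_iff_norm_tendsto_zero]
    have hz : Tendsto (fun X : ℝ => A * Real.exp (-(c * Real.exp X)) * |θ - 0|) atTop (𝓝 0) := by
      have h1 : Tendsto (fun X : ℝ => c * Real.exp X) atTop atTop :=
        Real.tendsto_exp_atTop.const_mul_atTop hc
      have h2 := (Real.tendsto_exp_neg_atTop_nhds_zero.comp h1).const_mul A
      have h3 := h2.mul_const |θ - 0|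
      simpa using h3
    refine squeeze_zero' (Eventually.of_forall fun X => norm_nonneg _) ?_ hz
    filter_upwards [eventually_ge_atTop (0 : ℝ)] with X hX
    refine intervalIntegral.norm_integral_le_of_norm_le_const fun y hy => ?_
    have h1 := hb (Complex.exp (X + y * Complex.I)) (by rw [exp_norm]; exact Real.one_le_exp hX)
      (by
        rw [exp_norm, exp_re]
        exact mul_le_mul_of_nonneg_left (cos_le' hθ (mem_uIoc_abs hy)) (Real.exp_pos X).le)
    rw [exp_norm] at h1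
    exact h1
  have hrect : ∀ X : ℝ, (∫ x in (0 : ℝ)..X, G (Complex.exp (x + (0 : ℝ) * Complex.I))) -
      (∫ x in (0 : ℝ)..X, G (Complex.exp (x + θ * Complex.I))) +
      Complex.I * (∫ y in (0 : ℝ)..θ, G (Complex.exp (X + y * Complex.I))) -
      Complex.I * (∫ y in (0 : ℝ)..θ, G (Complex.exp (y * Complex.I))) = 0 := by
    intro X
    have h1 := Complex.integral_boundary_rect_eq_zero_of_differentiableOn
      (fun z => G (Complex.exp z)) 0 (X + θ * Complex.I) (by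
        intro z hz
        rw [Complex.mem_reProdIm] at hz
        have h2 : z.im ∈ uIcc 0 θ := by
          have := hz.2
          simpa using this
        have h3 : |z.im| ≤ |θ| := by
          rcases le_total 0 θ with h | h
          · rw [uIcc_of_le h] at h2
            rw [abs_of_nonneg h2.1, abs_of_nonneg h]; exact h2.2
          · rw [uIcc_of_ge h] at h2
            rw [abs_of_nonpos h2.2, abs_of_nonpos h]; linarith [h2.1]
        have h4 : 0 < (Complex.exp z).re := by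
          rw [Complex.exp_re]
          exact mul_pos (Real.exp_pos _) ((cos_pos' hθ).trans_le (cos_le' hθ h3))
        have h5 : DifferentiableAt ℂ G (Complex.exp z) :=
          (hG _ h4).differentiableAt ((isOpen_lt continuous_const Complex.continuous_re).mem_nhds h4)
        exact (h5.comp z Complex.differentiableAt_exp).differentiableWithinAt)
    simpa using h1
  have hlim : Tendsto (fun X : ℝ => (∫ x in (0 : ℝ)..X, G (Complex.exp (x + (0 : ℝ) * Complex.I))) -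
      (∫ x in (0 : ℝ)..X, G (Complex.exp (x + θ * Complex.I))) +
      Complex.I * (∫ y in (0 : ℝ)..θ, G (Complex.exp (X + y * Complex.I))) -
      Complex.I * (∫ y in (0 : ℝ)..θ, G (Complex.exp (y * Complex.I)))) atTop
      (𝓝 ((∫ x in Ioi (0 : ℝ), G (Complex.exp (x + (0 : ℝ) * Complex.I))) -
        (∫ x in Ioi (0 : ℝ), G (Complex.exp (x + θ * Complex.I))) + Complex.I * 0 -
        Complex.I * (∫ y in (0 : ℝ)..θ, G (Complex.exp (y * Complex.I))))) :=
    ((l0.sub lθ).add (lv.const_mul _)).sub tendsto_const_nhds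
  simp only [hrect] at hlim
  have hfin := tendsto_nhds_unique hlim tendsto_const_nhds
  have e0 : ∫ u in Ioi (1 : ℝ), G u / u =
      ∫ x in Ioi (0 : ℝ), G (Complex.exp (x + (0 : ℝ) * Complex.I)) := by
    rw [← s0.2]
    simp
  rw [sθ.2, e0]
  linear_combination -hfin

end rot

/-! ### The bounds -/

/-- `u ^ a exp (- c u)` -/
theorem rpow_exp (a c : ℝ) (hc : 0 < c) : ∃ A : ℝ, 0 ≤ A ∧ ∀ u : ℝ, 1 ≤ u →
    u ^ a * Real.exp (-(c * u)) ≤ A * Real.exp (-(c / 2 * u)) := by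
  obtain ⟨m, hm⟩ := exists_nat_ge a
  refine ⟨(m.factorial : ℝ) * (2 / c) ^ m, by positivity, fun u hu => ?_⟩
  have hu0 : 0 < u := by linarith
  have h1 : u ^ a ≤ u ^ m := by
    rw [← Real.rpow_natCast]
    exact Real.rpow_le_rpow_of_exponent_le hu hm
  have h2 := Real.pow_div_factorial_le_exp (c / 2 * u) (by positivity) m
  have h3 : u ^ m ≤ (m.factorial : ℝ) * (2 / c) ^ m * Real.exp (c / 2 * u) := by
    have hf : (0 : ℝ) < m.factorial := by exact_mod_cast Nat.factorial_pos m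
    rw [div_le_iff₀ hf] at h2
    have h4 : u ^ m = (2 / c) ^ m * (c / 2 * u) ^ m := by
      rw [← mul_pow]
      congr 1
      field_simp
    rw [h4]
    calc (2 / c) ^ m * (c / 2 * u) ^ m
        ≤ (2 / c) ^ m * (Real.exp (c / 2 * u) * m.factorial) :=
          mul_le_mul_of_nonneg_left h2 (by positivity)
      _ = _ := by ring
  calc u ^ a * Real.exp (-(c * u))
      ≤ ((m.factorial : ℝ) * (2 / c) ^ m * Real.exp (c / 2 * u)) * Real.exp (-(c * u)) :=
        mul_le_mul_of_nonneg_right (h1.trans h3) (Real.exp_pos _).le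
    _ = (m.factorial : ℝ) * (2 / c) ^ m * Real.exp (-(c / 2 * u)) := by
        rw [mul_assoc, ← Real.exp_add]
        congr 2
        ring

theorem norm_cpow_le' {w : ℂ} (hw : w ≠ 0) (s : ℂ) :
    ‖w ^ s‖ ≤ ‖w‖ ^ s.re * Real.exp (π * |s.im|) := by
  rw [Complex.norm_cpow_of_ne_zero hw, div_eq_mul_inv, ← Real.exp_neg]
  refine mul_le_mul_of_nonneg_left (Real.exp_le_exp.mpr ?_) (Real.rpow_nonneg (norm_nonneg _) _)
  calc -(w.arg * s.im) ≤ |w.arg * s.im| := neg_le_abs _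
    _ = |w.arg| * |s.im| := abs_mul _ _
    _ ≤ π * |s.im| := mul_le_mul_of_nonneg_right (Complex.abs_arg_le_pi w) (abs_nonneg _)

/-- bound of the terms, with the power -/
theorem pbound (hPSB : T_PSB) (n : ℕ) (L : Pool.Agent.H89.FM.Lat) (x y K : ℝ) (hn : 1 ≤ n) (hL : L ∈ Ls n)
    (hy : 0 < y) (hK : 0 < K) (a : ℂ) : ∃ A c : ℝ, 0 ≤ A ∧ 0 < c ∧
    ∀ w : ℂ, 1 ≤ ‖w‖ → ‖w‖ ≤ K * w.re → Summable (fun v => ‖pst n L x y w v‖) ∧
      (∑' v : ℤ × ℤ, ‖pst n L x y w v‖) * ‖w ^ a‖ ≤ A * Real.exp (-(c * ‖w‖)) := by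
  obtain ⟨C, c, hC, hc, h⟩ := hPSB n L x y K hn hL hy hK
  obtain ⟨A, hA, h'⟩ := rpow_exp a.re c hc
  refine ⟨C * Real.exp (π * |a.im|) * A, c / 2, by positivity, by positivity, fun w h1 h2 => ?_⟩
  obtain ⟨h3, h4⟩ := h w h1 h2
  refine ⟨h3, ?_⟩
  have hw : w ≠ 0 := by
    rintro rfl
    rw [norm_zero] at h1
    linarith
  calc (∑' v : ℤ × ℤ, ‖pst n L x y w v‖) * ‖w ^ a‖
      ≤ (C * Real.exp (-(c * ‖w‖))) * (‖w‖ ^ a.re * Real.exp (π * |a.im|)) :=
        mul_le_mul h4 (norm_cpow_le' hw a) (norm_nonneg _) (by positivity)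
    _ = C * Real.exp (π * |a.im|) * (‖w‖ ^ a.re * Real.exp (-(c * ‖w‖))) := by ring
    _ ≤ C * Real.exp (π * |a.im|) * (A * Real.exp (-(c / 2 * ‖w‖))) :=
        mul_le_mul_of_nonneg_left (h' ‖w‖ h1) (by positivity)
    _ = _ := by ring

/-! ### Interchange -/

/-- the integrand -/
noncomputable def Fv (n : ℕ) (L : Pool.Agent.H89.FM.Lat) (x y : ℝ) (s τ : ℂ) (v : ℤ × ℤ) (u : ℝ) : ℂ :=
  (pst n L x y (τ * u) v * (τ * u) ^ s + pst n L x y (τ⁻¹ * u) v * (τ⁻¹ * u) ^ (1 - s)) / u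

open Classical in
theorem term_eq (n : ℕ) (L : Pool.Agent.H89.FM.Lat) (x y : ℝ) (s τ : ℂ) (v : ℤ × ℤ) :
    (if v ∈ L ∧ v ≠ 0 then Kk τ s (qz x y v / n) else 0) =
      ∫ u in Ioi (1 : ℝ), Fv n L x y s τ v u := by
  by_cases h : v ∈ L ∧ v ≠ 0
  · rw [if_pos h]
    unfold Kk Fv pst
    simp only [if_pos h]
  · rw [if_neg h]
    unfold Fv pst
    simp only [if_neg h, zero_mul, add_zero, zero_div, integral_zero]

theorem inv_re {τ : ℂ} (hτ : ‖τ‖ = 1) : (τ⁻¹).re = τ.re := by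
  rw [Complex.inv_re, Complex.normSq_eq_norm_sq, hτ]; simp

theorem sec {τ : ℂ} (hτ : ‖τ‖ = 1) {u : ℝ} (hu : 0 < u) :
    ‖τ * u‖ = u ∧ (τ * u).re = τ.re * u := by
  refine ⟨?_, Complex.re_mul_ofReal _ _⟩
  rw [norm_mul, hτ, one_mul, Complex.norm_real, Real.norm_eq_abs, abs_of_pos hu]

theorem Fv_cont (n : ℕ) (L : Pool.Agent.H89.FM.Lat) (x y : ℝ) (s τ : ℂ) (hτ : ‖τ‖ = 1) (hre : 0 < τ.re)
    (v : ℤ × ℤ) : ContinuousOn (Fv n L x y s τ v) (Ioi (1 : ℝ)) := by
  have hp : ∀ t : ℂ, Continuous fun u : ℝ => pst n L x y (t * u) v := by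
    intro t
    unfold pst phc
    by_cases h : v ∈ L ∧ v ≠ 0
    · simp only [if_pos h]; fun_prop
    · simp only [if_neg h]; exact continuous_const
  have hq : ∀ t a : ℂ, 0 < t.re → ContinuousOn (fun u : ℝ => (t * u) ^ a) (Ioi (1 : ℝ)) := by
    intro t a ht
    refine ContinuousOn.cpow (Continuous.continuousOn (by fun_prop)) continuousOn_const ?_
    intro u hu
    have hu' : (1 : ℝ) < u := hu
    left
    rw [Complex.re_mul_ofReal]
    exact mul_pos ht (by linarith)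
  unfold Fv
  refine ContinuousOn.div (((hp τ).continuousOn.mul (hq τ s hre)).add
    ((hp τ⁻¹).continuousOn.mul (hq τ⁻¹ (1 - s) (by rw [inv_re hτ]; exact hre))))
    (Complex.continuous_ofReal.continuousOn) ?_
  intro u hu
  have hu' : (1 : ℝ) < u := hu
  exact Complex.ofReal_ne_zero.mpr (by linarith)

theorem inter (hPSB : T_PSB) (n : ℕ) (L : Pool.Agent.H89.FM.Lat) (x y : ℝ) (s τ : ℂ) (hn : 1 ≤ n) (hL : L ∈ Ls n)
    (hy : 0 < y) (hτ : ‖τ‖ = 1) (hre : 0 < τ.re) :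
    HasSum (fun v => ∫ u in Ioi (1 : ℝ), Fv n L x y s τ v u)
      (∫ u in Ioi (1 : ℝ), (Psr n L x y (τ * u) * (τ * u) ^ s / u +
        Psr n L x y (τ⁻¹ * u) * (τ⁻¹ * u) ^ (1 - s) / u)) := by
  have hK : 0 < 1 / τ.re := by positivity
  obtain ⟨A, c, hA, hc, h⟩ := pbound hPSB n L x y _ hn hL hy hK s
  obtain ⟨A', c', hA', hc', h'⟩ := pbound hPSB n L x y _ hn hL hy hK (1 - s)
  have hτ' : ‖τ⁻¹‖ = 1 := by rw [norm_inv, hτ, inv_one]
  have hs : ∀ u : ℝ, 1 < u → 1 ≤ ‖τ * u‖ ∧ ‖τ * u‖ ≤ 1 / τ.re * (τ * u).re := by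
    intro u hu
    obtain ⟨e1, e2⟩ := sec hτ (show 0 < u by linarith)
    rw [e1, e2]
    refine ⟨hu.le, le_of_eq ?_⟩
    field_simp
  have hs' : ∀ u : ℝ, 1 < u → 1 ≤ ‖τ⁻¹ * u‖ ∧ ‖τ⁻¹ * u‖ ≤ 1 / τ.re * (τ⁻¹ * u).re := by
    intro u hu
    obtain ⟨e1, e2⟩ := sec hτ' (show 0 < u by linarith)
    rw [e1, e2, inv_re hτ]
    refine ⟨hu.le, le_of_eq ?_⟩
    field_simp
  -- the sum of the norms
  have hsum : ∀ (Fs : Finset (ℤ × ℤ)) (u : ℝ), 1 < u → ∑ v ∈ Fs, ‖Fv n L x y s τ v u‖ ≤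
      A * Real.exp (-c * u) + A' * Real.exp (-c' * u) := by
    intro Fs u hu
    have hu0 : 0 < u := by linarith
    obtain ⟨e1, _⟩ := sec hτ hu0
    obtain ⟨e1', _⟩ := sec hτ' hu0
    obtain ⟨h1, h2⟩ := h (τ * u) (hs u hu).1 (hs u hu).2
    obtain ⟨h1', h2'⟩ := h' (τ⁻¹ * u) (hs' u hu).1 (hs' u hu).2
    rw [e1] at h2
    rw [e1'] at h2'
    have h3 : ∀ v, ‖Fv n L x y s τ v u‖ ≤ ‖pst n L x y (τ * u) v‖ * ‖(τ * u) ^ s‖ +
        ‖pst n L x y (τ⁻¹ * u) v‖ * ‖(τ⁻¹ * u) ^ (1 - s)‖ := by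
      intro v
      unfold Fv
      rw [norm_div, Complex.norm_real, Real.norm_eq_abs, abs_of_pos hu0]
      refine (div_le_self (norm_nonneg _) hu.le).trans ?_
      refine (norm_add_le _ _).trans ?_
      rw [norm_mul, norm_mul]
    calc ∑ v ∈ Fs, ‖Fv n L x y s τ v u‖
        ≤ ∑ v ∈ Fs, (‖pst n L x y (τ * u) v‖ * ‖(τ * u) ^ s‖ +
          ‖pst n L x y (τ⁻¹ * u) v‖ * ‖(τ⁻¹ * u) ^ (1 - s)‖) :=
          Finset.sum_le_sum fun v _ => h3 v
      _ = (∑ v ∈ Fs, ‖pst n L x y (τ * u) v‖) * ‖(τ * u) ^ s‖ +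
          (∑ v ∈ Fs, ‖pst n L x y (τ⁻¹ * u) v‖) * ‖(τ⁻¹ * u) ^ (1 - s)‖ := by
          rw [Finset.sum_add_distrib, Finset.sum_mul, Finset.sum_mul]
      _ ≤ (∑' v, ‖pst n L x y (τ * u) v‖) * ‖(τ * u) ^ s‖ +
          (∑' v, ‖pst n L x y (τ⁻¹ * u) v‖) * ‖(τ⁻¹ * u) ^ (1 - s)‖ :=
          add_le_add
            (mul_le_mul_of_nonneg_right (h1.sum_le_tsum Fs fun _ _ => norm_nonneg _)
              (norm_nonneg _))
            (mul_le_mul_of_nonneg_right (h1'.sum_le_tsum Fs fun _ _ => norm_nonneg _)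
              (norm_nonneg _))
      _ ≤ A * Real.exp (-(c * u)) + A' * Real.exp (-(c' * u)) := add_le_add h2 h2'
      _ = _ := by rw [neg_mul, neg_mul]
  have hgi : IntegrableOn (fun u : ℝ => A * Real.exp (-c * u) + A' * Real.exp (-c' * u))
      (Ioi (1 : ℝ)) :=
    ((exp_neg_integrableOn_Ioi 1 hc).const_mul A).add
      ((exp_neg_integrableOn_Ioi 1 hc').const_mul A')
  have hint : ∀ v, Integrable (Fv n L x y s τ v) (volume.restrict (Ioi (1 : ℝ))) := by
    intro v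
    refine Integrable.mono' hgi
      ((Fv_cont n L x y s τ hτ hre v).aestronglyMeasurable measurableSet_Ioi) ?_
    refine (ae_restrict_iff' measurableSet_Ioi).mpr (Eventually.of_forall fun u hu => ?_)
    have := hsum {v} u hu
    simpa using this
  have hsummable : Summable fun v => ∫ u, ‖Fv n L x y s τ v u‖ ∂(volume.restrict (Ioi (1 : ℝ))) := by
    refine summable_of_sum_le (c := ∫ u in Ioi (1 : ℝ),
      (A * Real.exp (-c * u) + A' * Real.exp (-c' * u))) (fun v => integral_nonneg fun _ =>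
        norm_nonneg _) fun Fs => ?_
    rw [← integral_finsetSum _ fun v _ => (hint v).norm]
    refine setIntegral_mono_on (integrable_finsetSum _ fun v _ => (hint v).norm) hgi
      measurableSet_Ioi fun u hu => hsum Fs u hu
  have hfin := hasSum_integral_of_summable_integral_norm hint hsummable
  have hcong : ∫ u in Ioi (1 : ℝ), ∑' v, Fv n L x y s τ v u =
      ∫ u in Ioi (1 : ℝ), (Psr n L x y (τ * u) * (τ * u) ^ s / u +
        Psr n L x y (τ⁻¹ * u) * (τ⁻¹ * u) ^ (1 - s) / u) := by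
    refine setIntegral_congr_fun measurableSet_Ioi fun u hu => ?_
    have hu' : (1 : ℝ) < u := hu
    have h1 : HasSum (fun v => pst n L x y (τ * u) v) (Psr n L x y (τ * u)) :=
      (h (τ * u) (hs u hu').1 (hs u hu').2).1.of_norm.hasSum
    have h1' : HasSum (fun v => pst n L x y (τ⁻¹ * u) v) (Psr n L x y (τ⁻¹ * u)) :=
      (h' (τ⁻¹ * u) (hs' u hu').1 (hs' u hu').2).1.of_norm.hasSum
    have h2 := ((h1.mul_right ((τ * u) ^ s)).add (h1'.mul_right ((τ⁻¹ * u) ^ (1 - s)))).div_const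
      (u : ℂ)
    show ∑' v, Fv n L x y s τ v u = _
    rw [← add_div]
    exact h2.tsum_eq
  rw [hcong] at hfin
  exact hfin

/-! ### The theorem -/

theorem cpow_inv_id {w : ℂ} (hw : 0 < w.re) (s : ℂ) : w * (w⁻¹) ^ (1 - s) = w ^ s := by
  have hw0 : w ≠ 0 := by
    rintro rfl
    simp at hw
  have ha : w.arg ≠ π := by
    have h1 := Complex.abs_arg_lt_pi_div_two_iff.mpr (Or.inl hw)
    rw [abs_lt] at h1
    have := Real.pi_pos
    intro h2
    rw [h2] at h1
    linarith [h1.2]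
  rw [Complex.inv_cpow _ _ ha]
  have h2 : w ^ (1 - (1 - s)) = w ^ s := by congr 1; ring
  rw [← h2, Complex.cpow_sub 1 (1 - s) hw0, Complex.cpow_one, div_eq_mul_inv]

open Classical in
theorem pf_ROT (hINV : T_INV) (hPSB : T_PSB) : T_ROT := by
  intro n L x y s τ hn hL hy hτ hre
  obtain ⟨hdiff, hinv⟩ := hINV n L x y hn hL hy
  have hK : 0 < 1 / τ.re := by positivity
  have hτ0 : τ ≠ 0 := by rintro rfl; simp at hτ
  set θ : ℝ := τ.arg with hθd
  have hθ : |θ| < π / 2 := Complex.abs_arg_lt_pi_div_two_iff.mpr (Or.inl hre)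
  have hθ' : |(-θ)| < π / 2 := by rw [abs_neg]; exact hθ
  have hcos : Real.cos θ = τ.re := by rw [hθd, Complex.cos_arg hτ0, hτ, div_one]
  have eτ : Complex.exp (θ * Complex.I) = τ := by
    have := Complex.norm_mul_exp_arg_mul_I τ
    rw [hτ, Complex.ofReal_one, one_mul] at this
    exact this
  have eτ' : Complex.exp ((-θ : ℝ) * Complex.I) = τ⁻¹ := by
    rw [Complex.ofReal_neg, neg_mul, Complex.exp_neg, eτ]
  -- the two functions
  have dG : ∀ a : ℂ, DifferentiableOn ℂ (fun w => Psr n L x y w * w ^ a) {w | 0 < w.re} := by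
    intro a
    refine hdiff.mul fun w hw => ?_
    exact (differentiableAt_id.cpow (differentiableAt_const a) (Or.inl hw)).differentiableWithinAt
  have bG : ∀ a : ℂ, ∃ A c : ℝ, 0 < c ∧ ∀ w : ℂ, 1 ≤ ‖w‖ → ‖w‖ * Real.cos θ ≤ w.re →
      ‖Psr n L x y w * w ^ a‖ ≤ A * Real.exp (-(c * ‖w‖)) := by
    intro a
    obtain ⟨A, c, _, hc, h⟩ := pbound hPSB n L x y _ hn hL hy hK a
    refine ⟨A, c, hc, fun w h1 h2 => ?_⟩
    obtain ⟨h3, h4⟩ := h w h1 (by rw [hcos] at h2; rw [one_div, inv_mul_eq_div, le_div_iff₀ hre]; exact h2)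
    rw [norm_mul]
    refine (mul_le_mul_of_nonneg_right ?_ (norm_nonneg _)).trans h4
    exact norm_tsum_le_tsum_norm h3
  obtain ⟨A, c, hc, hb⟩ := bG s
  obtain ⟨A', c', hc', hb'⟩ := bG (1 - s)
  have hb'' : ∀ w : ℂ, 1 ≤ ‖w‖ → ‖w‖ * Real.cos (-θ) ≤ w.re →
      ‖Psr n L x y w * w ^ (1 - s)‖ ≤ A' * Real.exp (-(c' * ‖w‖)) := by
    rw [Real.cos_neg]; exact hb'
  have h0 : |(0 : ℝ)| < π / 2 := by rw [abs_zero]; positivity
  have hb0 : ∀ {B d : ℝ} {a : ℂ}, (∀ w : ℂ, 1 ≤ ‖w‖ → ‖w‖ * Real.cos θ ≤ w.re →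
      ‖Psr n L x y w * w ^ a‖ ≤ B * Real.exp (-(d * ‖w‖))) →
      ∀ w : ℂ, 1 ≤ ‖w‖ → ‖w‖ * Real.cos 0 ≤ w.re →
      ‖Psr n L x y w * w ^ a‖ ≤ B * Real.exp (-(d * ‖w‖)) := by
    intro B d a h w h1 h2
    refine h w h1 ?_
    rw [Real.cos_zero, mul_one] at h2
    calc ‖w‖ * Real.cos θ ≤ ‖w‖ * 1 :=
          mul_le_mul_of_nonneg_left (Real.cos_le_one θ) (norm_nonneg w)
      _ ≤ w.re := by rw [mul_one]; exact h2
  -- the integrals
  have r1 := rot (dG s) hc hθ hb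
  have r2 := rot (dG (1 - s)) hc' hθ' hb''
  have i1 := rot_int (dG s) hc hθ hb
  have i2 := rot_int (dG (1 - s)) hc' hθ' hb''
  have k1 := rot_int (dG s) hc h0 (hb0 hb)
  have k2 := rot_int (dG (1 - s)) hc' h0 (hb0 hb')
  rw [eτ] at r1 i1
  rw [eτ'] at r2 i2
  simp only [Complex.ofReal_zero, zero_mul, Complex.exp_zero, one_mul] at k1 k2
  have harc : ∫ y' in (0 : ℝ)..(-θ), (fun w => Psr n L x y w * w ^ (1 - s))
      (Complex.exp (y' * Complex.I)) =
      -∫ y' in (0 : ℝ)..θ, (fun w => Psr n L x y w * w ^ s) (Complex.exp (y' * Complex.I)) := by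
    have e1 : ∫ y' in (0 : ℝ)..θ, (fun w => Psr n L x y w * w ^ s) (Complex.exp (y' * Complex.I)) =
        ∫ y' in (0 : ℝ)..θ, (fun w => Psr n L x y w * w ^ (1 - s))
          (Complex.exp (((-y' : ℝ) : ℂ) * Complex.I)) := by
      refine intervalIntegral.integral_congr_ae (Eventually.of_forall fun y' hy' => ?_)
      have h3 : 0 < (Complex.exp (y' * Complex.I)).re := by
        have := exp_re 0 y'
        simp only [Complex.ofReal_zero, zero_add, Real.exp_zero, one_mul] at this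
        rw [this]
        exact (cos_pos' hθ).trans_le (cos_le' hθ (mem_uIoc_abs hy'))
      show Psr n L x y (Complex.exp (y' * Complex.I)) * (Complex.exp (y' * Complex.I)) ^ s =
        Psr n L x y (Complex.exp (((-y' : ℝ) : ℂ) * Complex.I)) *
          (Complex.exp (((-y' : ℝ) : ℂ) * Complex.I)) ^ (1 - s)
      rw [Complex.ofReal_neg, neg_mul, Complex.exp_neg, hinv _ h3, ← cpow_inv_id h3 s]
      ring
    rw [e1, intervalIntegral.integral_comp_neg (fun y' : ℝ => (fun w => Psr n L x y w * w ^ (1 - s))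
      (Complex.exp ((y' : ℂ) * Complex.I))), neg_zero, ← intervalIntegral.integral_symm]
  rw [harc] at r2
  -- conclusion
  have hJ : ∀ τ' : ℂ, ‖τ'‖ = 1 → 0 < τ'.re →
      HasSum (fun v => if v ∈ L ∧ v ≠ 0 then Kk τ' s (qz x y v / n) else 0)
      (∫ u in Ioi (1 : ℝ), (Psr n L x y (τ' * u) * (τ' * u) ^ s / u +
        Psr n L x y (τ'⁻¹ * u) * (τ'⁻¹ * u) ^ (1 - s) / u)) := by
    intro τ' h1 h2
    have := inter hPSB n L x y s τ' hn hL hy h1 h2
    simpa only [← term_eq] using this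
  have hE : Ez s n L x y = ∫ u in Ioi (1 : ℝ), (Psr n L x y (τ * u) * (τ * u) ^ s / u +
        Psr n L x y (τ⁻¹ * u) * (τ⁻¹ * u) ^ (1 - s) / u) := by
    have h1 := (hJ 1 (by simp) (by simp)).tsum_eq
    simp only [one_mul, inv_one] at h1
    rw [integral_add k1 k2] at h1
    rw [integral_add i1 i2, r1, r2]
    unfold Ez
    rw [h1]
    ring
  rw [hE]
  exact hJ τ hτ hre

end Pool.Agent.H13.FM
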